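import Pool.Agent.Y133.Half.TateHalfDefs
import Pool.Agent.Y133.Half.DDefs
import Pool.Agent.Y129.Defs
import Pool.Agent.H447R3.DegDefs
import Pool.Agent.H914R2.KDefs

/-!
# The index of the Tate classes: definitions
-/

set_option autoImplicit false

open CategoryTheory AlgebraicGeometry Filter Topology

open scoped ENNReal

universe u v

namespace Pool.Agent.L7h78.TI

open Pool.Agent.H914 Pool.Agent.H914.VarClass Pool.Agent.H914.VarClass.Obj
  Pool.Agent.H914.WeilCohomology Pool.Agent.W534
open Pool.Agent.Y133.Half hiding pw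
open Pool.Agent.Y129 (pw)
open Pool.Agent.H447 (HomEqNumIn)

variable {k : Type u} [Field k] {𝒱 : VarClass k} {ops : CycleOps 𝒱}
  {W : WeilCohomology.{u, v} ops} {p : ℕ}

/-- The class of the cycle `z`. -/
noncomputable def clOf (W : WeilCohomology.{u, v} ops) {Z : 𝒱.Obj} (z : Z.Cycles) : W.H Z :=
  W.cl Z z

/-- The image of the class `a` under the correspondence given by the cycle `z` on `Y × Z`. -/
noncomputable def act {Y Z : 𝒱.Obj} (z : (Y.prod Z).Cycles) (a : W.H Y) : W.H Z :=
  W.corr (clOf W z) a

/-- The classes of the algebraic cycles of all codimensions on `Z`. -/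
def cycClasses (W : WeilCohomology.{u, v} ops) (Z : 𝒱.Obj) : Set (W.H Z) :=
  {y | ∃ l z, Z.IsCyc l z ∧ clOf W z = y}

/-- The images of the class `a` on `Y` in the cohomology of `Z` under the correspondences which are
given by algebraic cycles on `Y × Z`. -/
def corrClasses {Y : 𝒱.Obj} (a : W.H Y) (Z : 𝒱.Obj) : Set (W.H Z) :=
  {y | ∃ l z, (Y.prod Z).IsCyc l z ∧ act z a = y}

/-- The Tate classes on `Z` are linear combinations of classes of algebraic cycles and of images of
the classes `c i`, on `X ^ (m i + 1)`, under algebraic correspondences (the dimension of the space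
spanned by the latter does not change if the Tate classes are added). -/
def GeneratedBy (Φ : FrobSystem W p) {X : 𝒱.Obj} {r : ℕ} (m : Fin r → ℕ)
    (c : ∀ i, W.H (pw X (m i))) (Z : 𝒱.Obj) : Prop :=
  dimOf W ((cycClasses W Z ∪ ⋃ i, corrClasses (c i) Z) ∪ tateSet Φ Z) =
    dimOf W (cycClasses W Z ∪ ⋃ i, corrClasses (c i) Z)

/-- There are `r` Tate classes on powers of `X`, where `r + 1 ≤ N`, such that all Tate classes on
all powers of `X` are linear combinations of classes of algebraic cycles and of images of these `r`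
classes under algebraic correspondences. -/
def TateGenerated (Φ : FrobSystem W p) (X : 𝒱.Obj) (N : ℕ∞) : Prop :=
  ∃ (r : ℕ) (m : Fin r → ℕ) (c : ∀ i, W.H (pw X (m i))), (r : ℕ∞) + 1 ≤ N ∧
    (∀ i, ∃ j, IsTate Φ (pw X (m i)) j (c i)) ∧ ∀ n, GeneratedBy Φ m c (pw X n)

/-- The quotient of `t n` and of the rank of the cycles on `X ^ (n + 1)` modulo numerical equivalence
tends to `N`. -/
def RatioTendsto (ops : CycleOps 𝒱) (X : 𝒱.Obj) (t : ℕ → ℕ) (N : ℕ∞) : Prop :=
  Tendsto (fun n => (t n : ℝ≥0∞) / cycRank ops (pw X n)) atTop (𝓝 (N : ℝ≥0∞))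

/-- `N` is the index of the Tate classes on the powers of `X`. -/
structure IsTateIndex (Φ : FrobSystem W p) (X : 𝒱.Obj) (N : ℕ∞) : Prop where
  /-- the ratio of the dimension of the Tate classes and of the rank of the cycles tends to `N` -/
  tate : RatioTendsto ops X (fun n => tateDim Φ (pw X n)) N
  /-- the same for the generalised Tate classes -/
  genTate : RatioTendsto ops X (fun n => genTateDim Φ (pw X n)) N
  /-- the ratio is at most `N` for the even powers -/
  le : ∀ n, (tateDim Φ (pw X (2 * n + 1)) : ℝ≥0∞) / cycRank ops (pw X (2 * n + 1)) ≤ (N : ℝ≥0∞)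
  /-- the index is one if and only if the Tate conjecture and the standard conjecture D hold -/
  one_iff : N = 1 ↔ ∀ n j, TateIn Φ (pw X n) j ∧ HomEqNumIn W (pw X n) j
  /-- if the index is finite, then the standard conjecture D holds -/
  homEqNum : N ≠ ⊤ → ∀ n j, HomEqNumIn W (pw X n) j
  /-- if the index is finite, then the standard conjecture B holds for all divisors which satisfy
  hard Lefschetz -/
  lefschetz : N ≠ ⊤ → ∀ n D, (pw X n).IsCyc 1 D → HardLefschetz W (pw X n) D →
    LefschetzB W (pw X n) D
  /-- if the index is finite, then the Frobenius endomorphism is semisimple -/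
  semisimple : N ≠ ⊤ → ∀ n, FrobSemisimple Φ (pw X n)
  /-- if the index is finite, then the Tate classes are finitely generated -/
  generated : N ≠ ⊤ → TateGenerated Φ X N

/-- On the subspace `U` the operator `F` is annihilated by a nonzero polynomial with rational
coefficients all of whose complex roots have the square `w` of the absolute value. -/
def HasWeight {K V : Type*} [Field K] [CharZero K] [AddCommGroup V] [Module K V]
    (F : Module.End K V) (U : Submodule K V) (w : ℝ) : Prop :=
  ∃ P : Polynomial ℚ, P ≠ 0 ∧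
    (∀ a ∈ U, Polynomial.aeval F (P.map (algebraMap ℚ K)) a = 0) ∧
    ∀ z : ℂ, Polynomial.aeval z P = 0 → ‖z‖ ^ 2 = w

/-- The Riemann hypothesis: on `H^i(X)` the endomorphism `f^*` is annihilated by a nonzero
polynomial with rational coefficients all of whose complex roots have absolute value
`q ^ (i / 2)`. -/
def RiemannHypothesis (W : WeilCohomology.{u, v} ops) (X : 𝒱.Obj) (f : X ⟶ X) (q : ℕ) : Prop :=
  ∀ i, HasWeight (W.map f).toLinearMap (W.gr X i) ((q : ℝ) ^ i)

end Pool.Agent.L7h78.TI
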