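import Pool.Agent.Y106.One.Tr
import Pool.Agent.Y133.Half.TateSS
import Pool.Agent.N181.Gap.Final

/-!
# The dimensions of the spaces of generalised Tate classes do not depend on the cohomology theory
-/

set_option autoImplicit false

open CategoryTheory AlgebraicGeometry

universe u v

namespace Pool.Agent.L7h78.TI

open Module Polynomial
open Pool.Agent.H914 Pool.Agent.H914.VarClass Pool.Agent.H914.VarClass.Obj
  Pool.Agent.H914.WeilCohomology Pool.Agent.W534 Pool.Agent.H281R3.HT Pool.Agent.Y133.Half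

section Split

/-- A polynomial is the product of a divisor of a power of `h` and of a polynomial prime to `h`. -/
lemma exists_split (h : ℚ[X]) : ∀ (N : ℕ) (Q : ℚ[X]), Q ≠ 0 → Q.natDegree ≤ N →
    ∃ (A B : ℚ[X]) (m : ℕ), Q = A * B ∧ A ∣ h ^ m ∧ IsCoprime B h := by
  intro N
  induction N with
  | zero =>
    intro Q hQ hN
    have h1 : IsUnit Q := by
      rw [Polynomial.isUnit_iff_degree_eq_zero, Polynomial.degree_eq_natDegree hQ]
      have : Q.natDegree = 0 := by omega
      rw [this]
      rfl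
    exact ⟨1, Q, 0, (one_mul Q).symm, one_dvd _, (isCoprime_one_left.of_isCoprime_of_dvd_left
      h1.dvd)⟩
  | succ N ih =>
    intro Q hQ hN
    by_cases hc : IsCoprime Q h
    · exact ⟨1, Q, 0, (one_mul Q).symm, one_dvd _, hc⟩
    · set d := EuclideanDomain.gcd Q h with hd
      have hdu : ¬ IsUnit d := fun hu => hc (EuclideanDomain.gcd_isUnit_iff.1 hu)
      obtain ⟨Q', hQ'⟩ : d ∣ Q := EuclideanDomain.gcd_dvd_left Q h
      have hd0 : d ≠ 0 := fun h0 => hQ (by rw [hQ', h0, zero_mul])
      have hQ'0 : Q' ≠ 0 := fun h0 => hQ (by rw [hQ', h0, mul_zero])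
      have hdeg : 0 < d.natDegree := by
        by_contra hcon
        apply hdu
        rw [Polynomial.isUnit_iff_degree_eq_zero, Polynomial.degree_eq_natDegree hd0]
        have : d.natDegree = 0 := by omega
        rw [this]
        rfl
      have hsum : Q.natDegree = d.natDegree + Q'.natDegree := by
        conv_lhs => rw [hQ']
        exact Polynomial.natDegree_mul hd0 hQ'0
      obtain ⟨A, B, m, h1, h2, h3⟩ := ih Q' hQ'0 (by omega)
      refine ⟨d * A, B, m + 1, ?_, ?_, h3⟩
      · rw [hQ', h1, mul_assoc]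
      · rw [pow_succ']
        exact mul_dvd_mul (EuclideanDomain.gcd_dvd_right Q h) h2

end Split

variable {k : Type u} [Field k] {𝒱 : VarClass k} {ops : CycleOps 𝒱}
  {W W' : WeilCohomology.{u, v} ops} {X Y Z : 𝒱.Obj} {p : ℕ}

/-- The polynomial `X ^ s - c`. -/
noncomputable def hh (c s : ℕ) : ℚ[X] := Polynomial.X ^ s - C (c : ℚ)

lemma ev_hh {K V : Type*} [Field K] [CharZero K] [AddCommGroup V] [Module K V]
    (F : Module.End K V) (c s : ℕ) : ev F (hh c s) = F ^ s - (c : K) • (1 : Module.End K V) := by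
  rw [ev_eq, hh, Polynomial.map_sub, Polynomial.map_pow, Polynomial.map_X, Polynomial.map_C,
    map_sub, map_pow, aeval_X, aeval_C, map_natCast, Algebra.algebraMap_eq_smul_one]

lemma frob_eq_pow (Φ : FrobSystem W p) (s : ℕ) :
    frob Φ X s = (W.map (Φ.Fr X)).toLinearMap ^ s := by
  apply LinearMap.ext
  intro x
  rw [Module.End.pow_apply, frob_apply, W534.map_iter]
  rfl

/-- The trace of the polynomial projector is the dimension of the space of generalised Tate
classes. -/
lemma trace_genTate (Φ : FrobSystem W p) {s j m : ℕ} {Q A B a b : ℚ[X]}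
    (hQ : ∀ x ∈ W.gr X (2 * j), ev (W.map (Φ.Fr X)).toLinearMap Q x = 0) (hAB : Q = A * B)
    (hA : A ∣ hh (card Φ X s ^ j) s ^ m) (hB : IsCoprime B (hh (card Φ X s ^ j) s))
    (hab : a * B + b * A = 1) :
    LinearMap.trace W.K (W.H X) (proj (W.isInternal X) (2 * j) *
      ev (W.map (Φ.Fr X)).toLinearMap (a * B)) = (finrank W.K (genTate Φ X s j) : W.K) := by
  set F : Module.End W.K (W.H X) := (W.map (Φ.Fr X)).toLinearMap with hF
  set h : ℚ[X] := hh (card Φ X s ^ j) s with hh'
  have hev : ev F h = frob Φ X s - ((card Φ X s : W.K) ^ j) • (1 : Module.End W.K (W.H X)) := by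
    rw [hh', ev_hh, frob_eq_pow, Nat.cast_pow]
  have hFp : ∀ (n i : ℕ), ∀ x ∈ W.gr X i, (F ^ n) x ∈ W.gr X i := by
    intro n i
    induction n with
    | zero => intro x hx; rw [pow_zero, Module.End.one_apply]; exact hx
    | succ n ih =>
      intro x hx
      rw [pow_succ', Module.End.mul_apply]
      exact W.map_mem (Φ.Fr X) (ih x hx)
  have hgr : ∀ (g : ℚ[X]) (i : ℕ), ∀ x ∈ W.gr X i, ev F g x ∈ W.gr X i := by
    intro g i x hx
    rw [ev_eq]
    generalize g.map (algebraMap ℚ W.K) = g'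
    induction g' using Polynomial.induction_on' with
    | add a b ha hb => rw [map_add, LinearMap.add_apply]; exact Submodule.add_mem _ ha hb
    | monomial n c =>
      rw [aeval_monomial, Algebra.algebraMap_eq_smul_one, smul_mul_assoc, one_mul,
        LinearMap.smul_apply]
      exact Submodule.smul_mem _ _ (hFp n i x hx)
  have hproj : ∀ (g : ℚ[X]) (x : W.H X), proj (W.isInternal X) (2 * j) (ev F g x) =
      ev F g (proj (W.isInternal X) (2 * j) x) := by
    intro g x
    refine gr_induction (W.isInternal X) (p := fun x => proj (W.isInternal X) (2 * j) (ev F g x) =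
      ev F g (proj (W.isInternal X) (2 * j) x)) ?_ ?_ x
    · intro i y hy
      by_cases hi : i = 2 * j
      · subst hi
        rw [proj_same _ hy, proj_same _ (hgr g _ y hy)]
      · rw [proj_ne _ hy hi, proj_ne _ (hgr g _ y hy) hi, map_zero]
    · intro y z hy hz
      rw [map_add, map_add, hy, hz, map_add, map_add]
  have hIs : LinearMap.IsProj (genTate Φ X s j) (proj (W.isInternal X) (2 * j) *
      ev F (a * B)) := by
    refine ⟨fun x => ?_, fun x hx => ?_⟩
    · rw [Module.End.mul_apply, hproj]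
      set y := proj (W.isInternal X) (2 * j) x with hy
      have hyg : y ∈ W.gr X (2 * j) := proj_mem _ _ _
      rw [mem_genTate]
      refine ⟨⟨m, ?_⟩, hgr _ _ _ hyg⟩
      obtain ⟨c, hc⟩ := hA
      rw [← hev, ← map_pow, ← Module.End.mul_apply, ← map_mul, hc]
      have e : A * c * (a * B) = (c * a) * Q := by rw [hAB]; ring
      rw [e, map_mul, Module.End.mul_apply, hQ y hyg, map_zero]
    · obtain ⟨⟨n, hn⟩, hxg⟩ := (mem_genTate Φ).1 hx
      rw [Module.End.mul_apply, hproj, proj_same _ hxg]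
      have h1 : ev F A x = 0 := by
        have hcop : IsCoprime B (h ^ n) := hB.pow_right
        obtain ⟨u', w', huw⟩ := hcop
        have h2 : ev F (u' * B + w' * h ^ n) (ev F A x) = ev F A x := by
          rw [huw, map_one, Module.End.one_apply]
        rw [← h2, map_add, LinearMap.add_apply, ← Module.End.mul_apply, ← map_mul,
          ← Module.End.mul_apply, ← map_mul]
        have e1 : u' * B * A = u' * Q := by rw [hAB]; ring
        have e2 : w' * h ^ n * A = (w' * A) * h ^ n := by ring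
        rw [e1, e2, map_mul, Module.End.mul_apply, hQ x hxg, map_zero, zero_add, map_mul,
          Module.End.mul_apply, map_pow, hev, hn, map_zero]
      have h2 : ev F (a * B) x = ev F (a * B + b * A) x := by
        rw [map_add, LinearMap.add_apply, map_mul (ev F) b A, Module.End.mul_apply, h1, map_zero,
          add_zero]
      rw [h2, hab, map_one, Module.End.one_apply]
  exact hIs.trace

/-- **The dimensions of the spaces of the generalised Tate classes are the same in all cohomology
theories.** -/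
theorem finrank_genTate_eq (Φ : FrobSystem W p) (Φ' : FrobSystem W' p)
    (hFr : Φ'.Fr X = Φ.Fr X) (he : Φ'.e X = Φ.e X) (hp : 1 < p)
    (h : RiemannHypothesis W X (Φ.Fr X) (p ^ Φ.e X))
    (h' : RiemannHypothesis W' X (Φ.Fr X) (p ^ Φ.e X)) (s j : ℕ) :
    finrank W'.K (genTate Φ' X s j) = finrank W.K (genTate Φ X s j) := by
  have hq : 1 < p ^ Φ.e X := Nat.one_lt_pow (Φ.e_pos X).ne' hp
  obtain ⟨P, hP0, hP, -⟩ := h (2 * j)
  obtain ⟨P', hP'0, hP', -⟩ := h' (2 * j)
  have hcard : card Φ' X s = card Φ X s := by rw [card, card, he]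
  obtain ⟨A, B, m, hAB, hA, hB⟩ := exists_split (hh (card Φ X s ^ j) s) _ (P * P')
    (mul_ne_zero hP0 hP'0) le_rfl
  have hcop : IsCoprime B A := (hB.pow_right (n := m)).of_isCoprime_of_dvd_right hA
  obtain ⟨a, b, hab⟩ := hcop
  have h1 := trace_genTate (X := X) Φ (s := s) (j := j) (Q := P * P') (fun x hx => by
    rw [mul_comm, map_mul, Module.End.mul_apply, ev_eq _ P, hP x hx, map_zero]) hAB hA hB hab
  have h2 := trace_genTate (X := X) Φ' (s := s) (j := j) (Q := P * P') (fun x hx => by
    rw [map_mul, Module.End.mul_apply, ev_eq _ P', hFr, hP' x hx, map_zero]) hAB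
    (by rw [hcard]; exact hA) (by rw [hcard]; exact hB) hab
  rw [hFr] at h2
  obtain ⟨t, ht, ht'⟩ := Pool.Agent.Y106.One.sameTraces_of_rh hq h h' (2 * j)
    (fun W => ev (W.map (Φ.Fr X)).toLinearMap (a * B))
    ((Pool.Agent.Y106.One.realized_map (Φ.Fr X)).ev (a * B))
  rw [h1] at ht
  rw [h2] at ht'
  have e1 : (finrank W.K (genTate Φ X s j) : ℚ) = t := by exact_mod_cast ht
  have e2 : (finrank W'.K (genTate Φ' X s j) : ℚ) = t := by exact_mod_cast ht'
  have e3 : (finrank W'.K (genTate Φ' X s j) : ℚ) = finrank W.K (genTate Φ X s j) := by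
    rw [e1, e2]
  exact_mod_cast e3

lemma TC_eq_tot (Φ : FrobSystem W p) (Z : 𝒱.Obj) :
    TC Φ Z = Pool.Agent.N181.Gap.tot (Pool.Agent.N181.Mod.sysT Φ) Z := by
  apply le_antisymm
  · intro x hx
    refine TC.ind (q := fun x => x ∈ Pool.Agent.N181.Gap.tot (Pool.Agent.N181.Mod.sysT Φ) Z)
      ?_ (Submodule.zero_mem _) (fun x y hx hy => Submodule.add_mem _ hx hy) hx
    intro s j hs x hx
    exact Pool.Agent.N181.Gap.le_tot _ Z j ((Pool.Agent.TH132.P.mem_genT Φ).2 ⟨s, hs, hx⟩)
  · refine iSup_le fun c => ?_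
    intro x hx
    obtain ⟨s, hs, hx'⟩ := (Pool.Agent.TH132.P.mem_genT Φ).1 hx
    exact TC.of hs hx'

/-- The dimension of the space of all generalised Tate classes does not depend on the theory. -/
theorem genTateDim_eq_of_rh (Φ : FrobSystem W p) (Φ' : FrobSystem W' p)
    (hFr : Φ'.Fr Z = Φ.Fr Z) (he : Φ'.e Z = Φ.e Z) (hp : 1 < p)
    (h : RiemannHypothesis W Z (Φ.Fr Z) (p ^ Φ.e Z))
    (h' : RiemannHypothesis W' Z (Φ.Fr Z) (p ^ Φ.e Z)) :
    genTateDim Φ' Z = genTateDim Φ Z := by
  rw [genTateDim_eq, genTateDim_eq, TC_eq_tot, TC_eq_tot, Pool.Agent.N181.Gap.finrank_tot,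
    Pool.Agent.N181.Gap.finrank_tot]
  refine Finset.sum_congr rfl fun c _ => ?_
  obtain ⟨t, ht, h1⟩ := Pool.Agent.TH132.P.genT_spec Φ Z c
  obtain ⟨t', ht', h2⟩ := Pool.Agent.TH132.P.genT_spec Φ' Z c
  have e1 := h1 (t * t') (Nat.mul_pos ht ht') (dvd_mul_right _ _)
  have e2 := h2 (t * t') (Nat.mul_pos ht ht') (dvd_mul_left _ _)
  have e3 := finrank_genTate_eq Φ Φ' hFr he hp h h' (t * t') c
  rw [e1, e2] at e3
  exact e3

end Pool.Agent.L7h78.TI
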