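import Pool.Agent.Y133.Half.Index2
import Pool.Agent.Y133.Half.TateSS
import Pool.Agent.Y163.TateA

/-!
# Numerical equivalence and the semisimplicity of the Frobenius endomorphism
-/

set_option autoImplicit false

open CategoryTheory AlgebraicGeometry

universe u v

namespace Pool.Agent.L7h78.TI

open Module Polynomial
open Pool.Agent.H914 Pool.Agent.H914.VarClass Pool.Agent.H914.VarClass.Obj
  Pool.Agent.H914.WeilCohomology Pool.Agent.W534 Pool.Agent.H281R3.HT Pool.Agent.Y133.Half

section Lin

variable {K V : Type*} [Field K] [CharZero K] [AddCommGroup V] [Module K V] [FiniteDimensional K V]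

/-- An injective operator with a semisimple power is semisimple. -/
lemma semisimple_of_pow {F : Module.End K V} (hinj : Function.Injective F) {B : ℕ} (hB : 0 < B)
    (h : (F ^ B).IsSemisimple) : F.IsSemisimple := by
  set m := minpoly K (F ^ B) with hm
  have hint : IsIntegral K (F ^ B) := Algebra.IsIntegral.isIntegral _
  have hsq : Squarefree m := h.minpoly_squarefree
  have hsep : m.Separable := PerfectField.separable_iff_squarefree.2 hsq
  have h0 : ¬ m.IsRoot 0 := by
    intro hr
    have h1 := Module.End.hasEigenvalue_of_isRoot hr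
    obtain ⟨x, hx⟩ := h1.exists_hasEigenvector
    apply hx.2
    have h2 := hx.apply_eq_smul
    rw [zero_smul] at h2
    have h3 : Function.Injective (F ^ B) := by
      rw [Module.End.coe_pow]
      exact hinj.iterate B
    exact h3 (by rw [h2, map_zero])
  refine Module.End.isSemisimple_of_squarefree_aeval_eq_zero (p := expand K B m) ?_ ?_
  · apply Polynomial.Separable.squarefree
    have h1 : IsCoprime (expand K B m) (expand K B (derivative m)) := by
      have h2 : IsCoprime m (derivative m) := hsep
      exact h2.map (expand K B : K[X] →ₐ[K] K[X]).toRingHom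
    have h2 : IsCoprime (expand K B m) ((X : K[X]) ^ (B - 1)) := by
      apply IsCoprime.pow_right
      rw [isCoprime_comm, Polynomial.prime_X.coprime_iff_not_dvd]
      intro hd
      apply h0
      rw [X_dvd_iff, coeff_expand hB] at hd
      simp only [dvd_zero, if_true, Nat.zero_div] at hd
      rw [IsRoot.def, ← coeff_zero_eq_eval_zero]
      exact hd
    have h3 : IsCoprime (expand K B m) (C (B : K)) := by
      have hu : IsUnit (C (B : K) : K[X]) :=
        (isUnit_iff_ne_zero.2 (Nat.cast_ne_zero.2 hB.ne')).map C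
      exact isCoprime_one_right.of_isCoprime_of_dvd_right (hu.dvd)
    rw [Polynomial.separable_def, derivative_expand]
    refine h1.mul_right ?_
    have e : ((B : K[X]) * X ^ (B - 1)) = C (B : K) * X ^ (B - 1) := by
      rw [Polynomial.C_eq_natCast]
    rw [e]
    exact h3.mul_right h2
  · rw [expand_aeval, hm, minpoly.aeval]

end Lin

variable {k : Type u} [Field k] {𝒱 : VarClass k} {ops : CycleOps 𝒱}
  {W : WeilCohomology.{u, v} ops} {X Y Z : 𝒱.Obj} {p : ℕ} (Φ : FrobSystem W p)

/-- A power of the Frobenius endomorphism commutes with all algebraic correspondences. -/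
lemma exists_comm (X : 𝒱.Obj) : ∃ B, 0 < B ∧ ∀ γ ∈ spanCycles W (X.prod X) (X.dim : ℕ), ∀ x,
    frob Φ X B (W.corr γ x) = W.corr γ (frob Φ X B x) := by
  obtain ⟨a, b, ha, hb, hab, h⟩ := frob_comm (W := W) Φ (fst X X)
  obtain ⟨a', b', ha', hb', hab', h'⟩ := frob_comm (W := W) Φ (snd X X)
  obtain ⟨t, ht, htt⟩ := exists_span_eig Φ (X.prod X) X.dim
  have heX := Φ.e_pos X
  have hB : b * (a' * t) = b' * (a * t) := by
    apply Nat.eq_of_mul_eq_mul_right heX
    calc b * (a' * t) * Φ.e X = (b * Φ.e X) * (a' * t) := by ring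
      _ = (a * Φ.e (X.prod X)) * (a' * t) := by rw [hab]
      _ = (a' * Φ.e (X.prod X)) * (a * t) := by ring
      _ = (b' * Φ.e X) * (a * t) := by rw [hab']
      _ = _ := by ring
  refine ⟨b * (a' * t), by positivity, fun γ hγ x => ?_⟩
  have hA : a * (a' * t) = a' * (a * t) := by ring
  have h1 : frob Φ (X.prod X) (a * (a' * t)) γ =
      ((card Φ (X.prod X) (a * (a' * t)) : W.K) ^ X.dim) • γ := by
    have := span_eig_mul' Φ (htt γ hγ) (a * a')
    rwa [mul_assoc] at this
  have h2 := Pool.Agent.Y163.frob_push Φ (snd X X) (s := a * t) hab' h'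
    (γ * W.map (fst X X) x)
  rw [← hB, ← hA] at h2
  set q : W.K := (card Φ (X.prod X) (a * (a' * t)) : W.K) with hq
  have hq0 : q ≠ 0 := card_ne Φ _
  have h3 : frob Φ (X.prod X) (a * (a' * t)) (γ * W.map (fst X X) x) =
      (q ^ X.dim) • (γ * W.map (fst X X) (frob Φ X (b * (a' * t)) x)) := by
    have h4 : frob Φ (X.prod X) (a * (a' * t)) (γ * W.map (fst X X) x) =
        frob Φ (X.prod X) (a * (a' * t)) γ *
          frob Φ (X.prod X) (a * (a' * t)) (W.map (fst X X) x) := by
      rw [frob_apply, map_mul]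
      rfl
    rw [h4, h1, smul_mul_assoc]
    congr 2
    rw [frob_apply, h]
    rfl
  rw [h3, map_smul, smul_smul, dim_prod] at h2
  rw [corr_apply, corr_apply]
  have h5 : q ^ (X.dim + X.dim) ≠ 0 := pow_ne_zero _ hq0
  rw [← pow_add] at h2
  exact smul_right_injective _ h5 h2

/-- If homological and numerical equivalence agree on `X × X`, then the Frobenius endomorphism of
`X` is semisimple. -/
theorem frobSemisimple_of_homEqNum (h : HomEqNum W (X.prod X)) : FrobSemisimple Φ X := by
  obtain ⟨B, hB, hcomm⟩ := exists_comm Φ X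
  set f : Module.End W.K (W.H X) := frob Φ X B with hf
  have hcomm' : ∀ φ ∈ Pool.Agent.Y163.KAlg W X, Commute f φ := by
    intro φ hφ
    obtain ⟨γ, hγ, rfl⟩ := mem_KOp_iff.1 (Pool.Agent.Y163.mem_KAlg.1 hφ)
    rw [add_zero] at hγ
    exact LinearMap.ext fun x => hcomm γ hγ x
  have hfK : f ∈ Pool.Agent.Y163.KAlg W X := by
    rw [Pool.Agent.Y163.mem_KAlg]
    have h1 : f = W.corr (W.cl _ (ops.push (Obj.lift (W534.iter (Φ.Fr X) B) (𝟙 X)) X.V.fundCycle)) :=
      (Pool.Agent.W534.corr_graph (W := W) (W534.iter (Φ.Fr X) B)).symm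
    rw [h1]
    exact KOp.gen (p := X.dim) (by ring)
      (ops.push_mem _ X.V.fundCycle_mem (by rw [dim_prod, zero_add]))
  obtain ⟨n, hn, s, -, hnil, hss, hns⟩ := f.exists_isNilpotent_isSemisimple
  have hnK : n ∈ Pool.Agent.Y163.KAlg W X :=
    (Algebra.adjoin_le (Set.singleton_subset_iff.2 hfK) : Algebra.adjoin W.K {f} ≤
      Pool.Agent.Y163.KAlg W X) hn
  have hnc : ∀ φ ∈ Pool.Agent.Y163.KAlg W X, Commute n φ := by
    intro φ hφ
    have h1 : Algebra.adjoin W.K {f} ≤ Subalgebra.centralizer W.K {φ} := by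
      apply Algebra.adjoin_le
      rw [Set.singleton_subset_iff]
      intro g hg
      rw [Set.mem_singleton_iff.1 hg]
      exact (hcomm' φ hφ).symm
    have h2 := h1 hn φ (Set.mem_singleton φ)
    exact h2.symm
  obtain ⟨γ, hγ, hγn⟩ := mem_KOp_iff.1 (Pool.Agent.Y163.mem_KAlg.1 hnK)
  rw [add_zero] at hγ
  have hγg : γ ∈ W.gr (X.prod X) (2 * X.dim) := Pool.Agent.H914.span_gr hγ
  have hγ0 : γ = 0 := by
    refine Pool.Agent.Y129.homEqNum_algSpan h ?_ ?_
    · rw [spanCycles_eq] at hγ
      exact Submodule.span_mono (Set.subset_iUnion (fun j => algClasses W (X.prod X) j) X.dim) hγ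
    · rw [Pool.Agent.Y129.mem_transcendental]
      intro d hd
      refine Pool.Agent.W536.RR.algSpan_induction (p := fun d => W.tr (X.prod X) (d * γ) = 0)
        ?_ ?_ ?_ ?_ hd
      · rw [zero_mul, map_zero]
      · intro a b ha hb
        rw [add_mul, map_add, ha, hb, add_zero]
      · intro t a ha
        rw [smul_mul_assoc, map_smul, ha, smul_zero]
      · intro j z hz
        by_cases hj : j = X.dim
        · subst hj
          rw [← W.even_comm hγg (W.cl _ z), Pool.Agent.Y163.tr_mul_eq_trace' hγg, hγn]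
          have hψ : W.corr (W.map (swap X X) (W.cl (X.prod X) z)) ∈
              Pool.Agent.Y163.KAlg W X := by
            rw [Pool.Agent.Y163.mem_KAlg, mem_KOp_iff]
            refine ⟨_, ?_, rfl⟩
            rw [add_zero]
            exact Pool.Agent.Y163.map_span (swap X X)
              (Submodule.subset_span ⟨X.dim, rfl, z, hz, rfl⟩)
          set ψ : Module.End W.K (W.H X) := W.corr (W.map (swap X X) (W.cl (X.prod X) z)) with hψd
          have h1 : Commute n (par (W.isInternal X)) :=
            (Pool.Agent.Y163.par_comm (Pool.Agent.Y163.deg0_of_mem hnK)).symm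
          have h2 : Commute n (par (W.isInternal X) * ψ) := h1.mul_right (hnc ψ hψ)
          have h3 : par (W.isInternal X) ∘ₗ n ∘ₗ ψ = n * (par (W.isInternal X) * ψ) := by
            rw [← mul_assoc, h1.eq, mul_assoc]
            rfl
          rw [h3]
          exact (LinearMap.isNilpotent_trace_of_isNilpotent
            (h2.isNilpotent_mul_right hnil)).eq_zero
        · exact W.tr_eq_zero (W.mul_mem (W.cl_mem hz) hγg) (by rw [dim_prod]; omega)
  have hn0 : n = 0 := by
    rw [← hγn, hγ0, corr_zero]
  rw [hn0, zero_add] at hns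
  have hF : ∀ s, frob Φ X s = (W.map (Φ.Fr X)).toLinearMap ^ s := by
    intro s
    apply LinearMap.ext
    intro x
    rw [Module.End.pow_apply, frob_apply, W534.map_iter]
    rfl
  refine semisimple_of_pow (B := B) ?_ hB ?_
  · have h1 := frob_pow_injective Φ (Z := X) 1 1
    rw [hF, pow_one, pow_one] at h1
    exact h1
  · rw [← hF B, ← hf, hns]
    exact hss

end Pool.Agent.L7h78.TI
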