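import Pool.Agent.L7h78.TI.Defs
import Pool.Agent.L7h78.TI.Semi
import Pool.Agent.L7h78.TI.Indep
import Pool.Agent.Y133.Half.TrueTate
import Pool.Agent.H447R3.DegB

/-!
# The index of the Tate classes
-/

set_option autoImplicit false

open CategoryTheory AlgebraicGeometry Filter Topology

open scoped ENNReal

universe u v

namespace Pool.Agent.L7h78.TI

open Module
open Pool.Agent.H914 Pool.Agent.H914.VarClass Pool.Agent.H914.VarClass.Obj
  Pool.Agent.H914.WeilCohomology Pool.Agent.W534 Pool.Agent.H281R3.HT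
open Pool.Agent.Y133.Half hiding pw
open Pool.Agent.Y129 (pw genBy)

variable {k : Type u} [Field k] {𝒱 : VarClass k} {ops : CycleOps 𝒱}
  {W W' : WeilCohomology.{u, v} ops} {X Y Z : 𝒱.Obj} {p : ℕ}

lemma homEqNum_iff_in (Z : 𝒱.Obj) :
    HomEqNum W Z ↔ ∀ j, Pool.Agent.H447.HomEqNumIn W Z j := by
  constructor
  · intro h j z hz hnum
    by_cases hd : j ≤ Z.dim
    · exact h j hd z hz hnum
    · have h6 := W.cl_mem hz
      rw [W.gr_eq_bot _ _ (by omega)] at h6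
      exact (Submodule.mem_bot _).1 h6
  · intro h j _ z hz hnum
    exact h j z hz hnum

/-- The square of `X ^ (n + 1)` is isomorphic to `X ^ (2 n + 2)`. -/
noncomputable def sqIso (X : 𝒱.Obj) (n : ℕ) : (pw X n).prod (pw X n) ≅ pw X (n + n + 1) :=
  prodCongr (pwIso129 X n) (pwIso129 X n) ≪≫ pwAdd X n n ≪≫ (pwIso129 X (n + n + 1)).symm

lemma TSpan_eq_of (Φ : FrobSystem W p) {m : ℕ} (hm : 0 < m)
    (hss : ∀ t, (frob Φ Z (m * t)).IsSemisimple) : TSpan Φ Z = TC Φ Z := by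
  refine le_antisymm (TSpan_le Φ _) ?_
  intro x hx
  refine TC.ind (q := fun x => x ∈ TSpan Φ Z) ?_ ?_ ?_ hx
  · intro s j hs x hx
    have h1 := genTate_mono' Φ s m j hx
    apply Submodule.subset_span
    refine ⟨j, hx.2, m * s, Nat.mul_pos hm hs, ?_⟩
    have h2 := (hss s).isFinitelySemisimple.maxGenEigenspace_eq_eigenspace
      ((card Φ Z (m * s) : W.K) ^ j)
    have h3 : x ∈ (frob Φ Z (m * s)).maxGenEigenspace
      ((card Φ Z (m * s) : W.K) ^ j) := h1.1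
    rw [h2, Module.End.mem_eigenspace_iff] at h3
    rw [← card_pow]
    exact h3
  · exact Submodule.zero_mem _
  · intro x y hx hy; exact Submodule.add_mem _ hx hy

lemma tSpan_eq_alg_iff (Φ : FrobSystem W p) (Z : 𝒱.Obj) :
    TSpan Φ Z = algSpan W Z ↔ ∀ j, TateIn Φ Z j := by
  constructor
  · intro h j c hc
    exact spanCycles_of_algSpan (by rw [← h]; exact TSpan.of hc) hc.1
  · intro h
    apply le_antisymm
    · intro x hx
      refine TSpan.ind (q := fun x => x ∈ algSpan W Z) ?_ (Submodule.zero_mem _)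
        (fun x y hx hy => Submodule.add_mem _ hx hy) (fun c x hx => Submodule.smul_mem _ c hx) hx
      intro j x hx
      have h1 := h j x hx
      rw [spanCycles_eq] at h1
      exact Submodule.span_mono (Set.subset_iUnion (fun j => algClasses W Z j) j) h1
    · exact alg_le_trueTate Φ Z

lemma generated_of {Φ : FrobSystem W p} {r : ℕ} {m : Fin r → ℕ} {c : ∀ i, W.H (pw X (m i))}
    (h : ∀ x ∈ tateSet Φ Z,
      x ∈ Submodule.span W.K (cycClasses W Z ∪ ⋃ i, corrClasses (c i) Z)) :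
    GeneratedBy Φ m c Z := by
  rw [GeneratedBy, dimOf, dimOf, Set.finrank, Set.finrank, Submodule.span_union,
    sup_eq_left.2 (Submodule.span_le.2 h)]

/-- **The index of the Tate classes**, for one theory. -/
theorem exists_tateIndex (Φ : FrobSystem W p) (X : 𝒱.Obj) [Nontrivial (W.H X)] :
    ∃ N : ℕ∞, 1 ≤ N ∧ IsTateIndex Φ X N := by
  obtain ⟨N, h1, h2, h3, h4, h5⟩ := (trueTateSys Φ).full_index (alg_le_trueTate Φ) X
  have hD : N ≠ ⊤ → ∀ n, HomEqNum W (pw X n) := fun hN => (h5 hN).1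
  have hDD : N ≠ ⊤ → ∀ n, HomEqNum W ((pw X n).prod (pw X n)) := fun hN n =>
    (homEqNum_iso (sqIso X n)).2 (hD hN (n + n + 1))
  have hss : N ≠ ⊤ → ∀ n, FrobSemisimple Φ (pw X n) := fun hN n =>
    frobSemisimple_of_homEqNum Φ (hDD hN n)
  have h2' : RatioTendsto ops X (fun n => tateDim Φ (pw X n)) N := h2
  refine ⟨N, h1, h2', ?_, h3, ?_, fun hN n => (homEqNum_iff_in _).1 (hD hN n), ?_, hss, ?_⟩
  · by_cases hN : N = ⊤
    · rw [hN] at h2' ⊢
      refine tendsto_nhds_top_mono' (f := fun n => (tateDim Φ (pw X n) : ℝ≥0∞) /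
        cycRank ops (pw X n)) h2' fun n => ?_
      refine ENNReal.div_le_div_right ?_ _
      have h6 : tateDim Φ (pw X n) ≤ genTateDim Φ (pw X n) := by
        rw [tateDim_eq, genTateDim_eq]
        exact Submodule.finrank_mono (TSpan_le Φ _)
      exact_mod_cast h6
    · have h6 : ∀ n, genTateDim Φ (pw X n) = tateDim Φ (pw X n) := by
        intro n
        rw [genTateDim_eq, tateDim_eq,
          TSpan_eq_of Φ one_pos fun t => frob_semisimple Φ (hss hN n) _]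
      simp only [h6]
      exact h2'
  · rw [h4]
    refine forall_congr' fun n => ?_
    rw [forall_and]
    exact and_congr (tSpan_eq_alg_iff Φ _) (homEqNum_iff_in _)
  · intro hN n D hDc hHL
    exact Pool.Agent.H447.lefschetzB_of_homEqNumIn hDc hHL ((homEqNum_iff_in _).1 (hDD hN n) _)
  · intro hN
    obtain ⟨r, c, h6, h7, h8⟩ := (h5 hN).2 (fun n => tateSet Φ (pw X n)) fun n => rfl
    refine ⟨r, fun i => (c i).1, fun i => (c i).2, h6, h7, fun n => generated_of ?_⟩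
    intro z hz
    have h9 := h8 n (Submodule.subset_span hz)
    refine SetLike.le_def.1 (sup_le ?_ (Submodule.span_mono ?_)) h9
    · refine Submodule.span_mono ?_
      rintro x hx
      obtain ⟨l, z, hz, rfl⟩ := Set.mem_iUnion.1 hx
      exact Or.inl ⟨l, z, hz, rfl⟩
    · intro x hx
      obtain ⟨i, hi⟩ := Set.mem_iUnion.1 hx
      obtain ⟨l, y, ⟨z, hz, rfl⟩, rfl⟩ := hi
      exact Or.inr (Set.mem_iUnion.2 ⟨i, l, z, hz, corr_apply _ _ _⟩)

/-- **The index of the Tate classes does not depend on the theory.** -/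
theorem index_law (p : ℕ) (hp : 1 < p) (X : 𝒱.Obj) (F : ∀ Z : 𝒱.Obj, Z ⟶ Z) (e : 𝒱.Obj → ℕ) :
    ∃ N : ℕ∞, 1 ≤ N ∧ ∀ (W : WeilCohomology.{u, v} ops) (Φ : FrobSystem W p), Φ.Fr = F →
      Φ.e = e → (∀ Z, RiemannHypothesis W Z (F Z) (p ^ e Z)) → Nontrivial (W.H X) →
      IsTateIndex Φ X N := by
  by_cases hex : ∃ (W : WeilCohomology.{u, v} ops) (Φ : FrobSystem W p), Φ.Fr = F ∧
      Φ.e = e ∧ (∀ Z, RiemannHypothesis W Z (F Z) (p ^ e Z)) ∧ Nontrivial (W.H X)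
  · obtain ⟨W, Φ, rfl, rfl, hRH, hnt⟩ := hex
    obtain ⟨N, h1, h2⟩ := exists_tateIndex Φ X
    refine ⟨N, h1, ?_⟩
    intro W' Φ' hF he hRH' hnt'
    obtain ⟨N', -, h3⟩ := exists_tateIndex Φ' X
    have h4 : ∀ n, genTateDim Φ' (pw X n) = genTateDim Φ (pw X n) := fun n =>
      genTateDim_eq_of_rh Φ Φ' (by rw [hF]) (by rw [he]) hp (hRH _) (hRH' _)
    have h5 := h3.genTate
    simp only [h4] at h5
    have h6 : (N' : ℝ≥0∞) = (N : ℝ≥0∞) := tendsto_nhds_unique h5 h2.genTate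
    have h7 : N' = N := by exact_mod_cast h6
    rw [← h7]
    exact h3
  · refine ⟨1, le_rfl, ?_⟩
    intro W Φ hF he hRH hnt
    exact absurd ⟨W, Φ, hF, he, hRH, hnt⟩ hex

lemma le_of_share {t c : ℕ → ℕ} {N : ℕ∞} {δ : ℝ} (hδ : 0 < δ)
    (h : Tendsto (fun n => (t n : ℝ≥0∞) / c n) atTop (𝓝 (N : ℝ≥0∞)))
    (hf : ∃ᶠ n in atTop, δ * t n ≤ c n) : ∃ m : ℕ, N = m ∧ (m : ℝ) * δ ≤ 1 := by
  have h1 : (N : ℝ≥0∞) ≤ ENNReal.ofReal (1 / δ) := by
    refine le_of_tendsto_of_frequently h (hf.mono fun n hn => ?_)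
    refine ENNReal.div_le_of_le_mul ?_
    have h2 : (t n : ℝ) ≤ 1 / δ * c n := by
      rw [one_div, ← div_eq_inv_mul, le_div_iff₀ hδ, mul_comm]
      exact hn
    have h3 := ENNReal.ofReal_le_ofReal h2
    rw [ENNReal.ofReal_natCast, ENNReal.ofReal_mul (by positivity), ENNReal.ofReal_natCast] at h3
    exact h3
  have h2 : N ≠ ⊤ := by
    rintro rfl
    rw [ENat.toENNReal_top, top_le_iff] at h1
    exact ENNReal.ofReal_ne_top h1
  obtain ⟨m, rfl⟩ := ENat.ne_top_iff_exists.1 h2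
  refine ⟨m, rfl, ?_⟩
  rw [ENat.toENNReal_coe, ← ENNReal.ofReal_natCast,
    ENNReal.ofReal_le_ofReal_iff (by positivity)] at h1
  rwa [le_div_iff₀ hδ] at h1

/-- **A positive proportion of the Tate classes.** -/
theorem positive_share {p : ℕ} (hp : 1 < p) {X : 𝒱.Obj} {Φ : FrobSystem W p}
    {Φ' : FrobSystem W' p} (hF : Φ'.Fr = Φ.Fr) (he : Φ'.e = Φ.e)
    (h : ∀ Z, RiemannHypothesis W Z (Φ.Fr Z) (p ^ Φ.e Z))
    (h' : ∀ Z, RiemannHypothesis W' Z (Φ.Fr Z) (p ^ Φ.e Z)) (hn : Nontrivial (W.H X))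
    (hn' : Nontrivial (W'.H X)) {δ : ℝ} (hδ : 0 < δ)
    (hf : ∃ᶠ n in atTop, δ * tateDim Φ (pw X n) ≤ cycRank ops (pw X n)) :
    ∃ m : ℕ, 1 ≤ m ∧ (m : ℝ) * δ ≤ 1 ∧ IsTateIndex Φ' X m := by
  obtain ⟨N, h1, h2⟩ := index_law (ops := ops) p hp X Φ.Fr Φ.e
  obtain ⟨m, rfl, h3⟩ := le_of_share hδ (h2 W Φ rfl rfl h hn).tate hf
  exact ⟨m, by exact_mod_cast h1, h3, h2 W' Φ' hF he h' hn'⟩

end Pool.Agent.L7h78.TI
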